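import Mathlib

/-!
# Graphs with short and long edges

Definitions: instances, complete bipartite graphs, straight-line drawings in the plane with
prescribed short (length at most `1`) and long (length greater than `1`) edges.
-/

namespace Pool.Agent.TH663.LS

/-- An input `(V, S, L)`: the list of the vertices (natural numbers), the list of the short edges
and the list of the long edges (edges are pairs of vertices; `(u, v)` and `(v, u)` denote the same
edge). -/
abbrev Inst : Type := List ℕ × List (ℕ × ℕ) × List (ℕ × ℕ)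

/-- The list of all edges. -/
def edges (G : Inst) : List (ℕ × ℕ) := G.2.1 ++ G.2.2

/-- The pairs `e` and `f` denote the same edge. -/
def Same (e f : ℕ × ℕ) : Prop := e = f ∨ e = (f.2, f.1)

/-- `(V, S, L)` describes a finite simple graph with vertex set `V` whose edge set is partitioned
into `S` and `L`. -/
structure IsInst (G : Inst) : Prop where
  ends : ∀ e ∈ edges G, e.1 ∈ G.1 ∧ e.2 ∈ G.1 ∧ e.1 ≠ e.2
  disj : ∀ e ∈ G.2.1, ∀ f ∈ G.2.2, ¬ Same e f

/-- Adjacency in the underlying graph. -/
def Adj (G : Inst) (u v : ℕ) : Prop := (u, v) ∈ edges G ∨ (v, u) ∈ edges G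

/-- The underlying graph is a complete bipartite graph `K_{m,n}` with `m, n ≥ 1`: the vertices are
split into two nonempty classes, and two vertices are adjacent if and only if they are in different
classes. -/
def IsCompleteBipartite (G : Inst) : Prop :=
  ∃ A : Set ℕ, (∃ u ∈ G.1, u ∈ A) ∧ (∃ v ∈ G.1, v ∉ A) ∧
    ∀ u ∈ G.1, ∀ v ∈ G.1, Adj G u v ↔ ((u ∈ A ∧ v ∉ A) ∨ (u ∉ A ∧ v ∈ A))

/-- The Euclidean length of the segment `ab`. -/
noncomputable def len (a b : ℝ × ℝ) : ℝ := Real.sqrt ((a.1 - b.1) ^ 2 + (a.2 - b.2) ^ 2)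

/-- `p` is a nondegenerate straight-line drawing: distinct vertices are placed at distinct points
of the plane, and no vertex lies on the segment of an edge unless it is one of its ends. -/
structure IsDrawing (G : Inst) (p : ℕ → ℝ × ℝ) : Prop where
  inj : ∀ u ∈ G.1, ∀ v ∈ G.1, p u = p v → u = v
  avoid : ∀ e ∈ edges G, ∀ w ∈ G.1, w ≠ e.1 → w ≠ e.2 → p w ∉ segment ℝ (p e.1) (p e.2)

/-- Long/short edge realizability: there is a straight-line drawing in which every short edge has
length at most `1` and every long edge has length greater than `1`. -/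
def Realizable (G : Inst) : Prop :=
  ∃ p : ℕ → ℝ × ℝ, IsDrawing G p ∧ (∀ e ∈ G.2.1, len (p e.1) (p e.2) ≤ 1) ∧
    ∀ e ∈ G.2.2, 1 < len (p e.1) (p e.2)

end Pool.Agent.TH663.LS
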