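import Pool.Agent.TH663.LS.Defs
import Pool.Agent.H606R2.GPP.Member
import Pool.Agent.H606R2.GPP.PolyR
import Pool.Agent.H625R2.BallFin

/-!
# Long and short edges on complete bipartite graphs: hardness
-/

namespace Pool.Agent.NPC.TH663.LS

open Pool.Agent.NPC Pool.Agent.NPC.ER Pool.Agent.NPC.ER.Pat Pool.Agent.TH663.LS
open Pool.Agent.NPC.ER.GPP (D ev_pos ev_ne ev_all)
open Filter
open scoped Topology

theorem len_le_one {a b : ℝ × ℝ} : len a b ≤ 1 ↔ (a.1 - b.1) ^ 2 + (a.2 - b.2) ^ 2 ≤ 1 := by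
  unfold len
  rw [Real.sqrt_le_one]

theorem one_lt_len {a b : ℝ × ℝ} : 1 < len a b ↔ 1 < (a.1 - b.1) ^ 2 + (a.2 - b.2) ^ 2 := by
  unfold len
  rw [Real.lt_sqrt (by norm_num), one_pow]

/-! ### General position -/

theorem ev_quad {a b c : ℝ} (h : c ≠ 0) : ∀ᶠ δ in 𝓝[>] (0 : ℝ), a + δ * b + δ ^ 2 * c ≠ 0 := by
  by_cases ha : a = 0
  · filter_upwards [self_mem_nhdsWithin, ev_ne (a := b) (b := c) (Or.inr h)] with δ hδ h1
    rw [ha]
    have e : 0 + δ * b + δ ^ 2 * c = δ * (b + δ * c) := by ring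
    rw [e]
    exact mul_ne_zero (ne_of_gt hδ) h1
  · have h1 : Tendsto (fun δ : ℝ => a + δ * b + δ ^ 2 * c) (𝓝[>] (0 : ℝ)) (𝓝 a) := by
      have : Tendsto (fun δ : ℝ => a + δ * b + δ ^ 2 * c) (𝓝 0) (𝓝 (a + 0 * b + 0 ^ 2 * c)) := by
        apply Continuous.tendsto
        fun_prop
      simp only [zero_mul, add_zero, ne_eq, OfNat.ofNat_ne_zero, not_false_eq_true,
        zero_pow] at this
      exact this.mono_left nhdsWithin_le_nhds
    exact h1.eventually_ne ha

/-- The perturbed points. -/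
def mv (p : ℕ → ℝ × ℝ) (δ : ℝ) (v : ℕ) : ℝ × ℝ := ((p v).1 + δ * v, (p v).2 + δ * (v : ℝ) ^ 2)

theorem ev_mv_ne (p : ℕ → ℝ × ℝ) {u v : ℕ} (h : u ≠ v) :
    ∀ᶠ δ in 𝓝[>] (0 : ℝ), mv p δ u ≠ mv p δ v := by
  have h1 : (u : ℝ) - v ≠ 0 := sub_ne_zero.2 (by exact_mod_cast h)
  filter_upwards [ev_ne (a := (p u).1 - (p v).1) (b := (u : ℝ) - v) (Or.inr h1)] with δ hδ he
  apply hδ
  have := congrArg Prod.fst he
  simp only [mv] at this
  linarith

theorem ev_mv_D (p : ℕ → ℝ × ℝ) {u v w : ℕ} (h1 : u ≠ v) (h2 : u ≠ w) (h3 : v ≠ w) :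
    ∀ᶠ δ in 𝓝[>] (0 : ℝ), D (mv p δ u) (mv p δ v) (mv p δ w) ≠ 0 := by
  have k1 : (v : ℝ) - u ≠ 0 := sub_ne_zero.2 (by exact_mod_cast h1.symm)
  have k2 : (w : ℝ) - u ≠ 0 := sub_ne_zero.2 (by exact_mod_cast h2.symm)
  have k3 : (w : ℝ) - v ≠ 0 := sub_ne_zero.2 (by exact_mod_cast h3.symm)
  have k := mul_ne_zero (mul_ne_zero k1 k2) k3
  filter_upwards [ev_quad (a := D (p u) (p v) (p w))
    (b := ((p v).1 - (p u).1) * ((w : ℝ) ^ 2 - (u : ℝ) ^ 2) + ((v : ℝ) - u) *
      ((p w).2 - (p u).2) - (((p v).2 - (p u).2) * ((w : ℝ) - u) +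
      ((v : ℝ) ^ 2 - (u : ℝ) ^ 2) * ((p w).1 - (p u).1))) k] with δ hδ
  intro h
  apply hδ
  rw [← h]
  simp only [D, mv]
  ring

/-- A strict realization can be perturbed to a nondegenerate one. -/
theorem realizable_of_strict {G : Inst} (p : ℕ → ℝ × ℝ)
    (hs : ∀ e ∈ G.2.1, ((p e.1).1 - (p e.2).1) ^ 2 + ((p e.1).2 - (p e.2).2) ^ 2 < 1)
    (hl : ∀ e ∈ G.2.2, 1 < ((p e.1).1 - (p e.2).1) ^ 2 + ((p e.1).2 - (p e.2).2) ^ 2)
    (hG : IsInst G) : Realizable G := by
  have hcont : ∀ e : ℕ × ℕ, Tendsto (fun δ : ℝ => ((mv p δ e.1).1 - (mv p δ e.2).1) ^ 2 +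
      ((mv p δ e.1).2 - (mv p δ e.2).2) ^ 2) (𝓝[>] (0 : ℝ))
      (𝓝 (((p e.1).1 - (p e.2).1) ^ 2 + ((p e.1).2 - (p e.2).2) ^ 2)) := by
    intro e
    have : Tendsto (fun δ : ℝ => ((mv p δ e.1).1 - (mv p δ e.2).1) ^ 2 +
      ((mv p δ e.1).2 - (mv p δ e.2).2) ^ 2) (𝓝 (0 : ℝ))
      (𝓝 (((mv p 0 e.1).1 - (mv p 0 e.2).1) ^ 2 + ((mv p 0 e.1).2 - (mv p 0 e.2).2) ^ 2)) := by
      apply Continuous.tendsto
      unfold mv
      fun_prop
    have e0 : ∀ v, mv p 0 v = p v := fun v => by simp [mv]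
    rw [e0, e0] at this
    exact this.mono_left nhdsWithin_le_nhds
  have hfin : ∀ {β : Type} (l : List β) (P : β → ℝ → Prop),
      (∀ b ∈ l, ∀ᶠ δ in 𝓝[>] (0 : ℝ), P b δ) → ∀ᶠ δ in 𝓝[>] (0 : ℝ), ∀ b ∈ l, P b δ := by
    intro β l P h
    exact (eventually_all_finite (List.finite_toSet l)).2 h
  have h1 := hfin G.2.1 _ fun e he => (hcont e).eventually (gt_mem_nhds (hs e he))
  have h2 := hfin G.2.2 _ fun e he => (hcont e).eventually (lt_mem_nhds (hl e he))
  have h3 : ∀ᶠ δ in 𝓝[>] (0 : ℝ), ∀ u ∈ G.1, ∀ v ∈ G.1, u ≠ v → mv p δ u ≠ mv p δ v := by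
    refine hfin _ _ fun u _ => hfin _ _ fun v _ => ?_
    by_cases h : u = v
    · exact Eventually.of_forall fun _ h' => absurd h h'
    · filter_upwards [ev_mv_ne p h] with δ hδ _ using hδ
  have h4 : ∀ᶠ δ in 𝓝[>] (0 : ℝ), ∀ u ∈ G.1, ∀ v ∈ G.1, ∀ w ∈ G.1, u ≠ v ∧ u ≠ w ∧ v ≠ w →
      D (mv p δ u) (mv p δ v) (mv p δ w) ≠ 0 := by
    refine hfin _ _ fun u _ => hfin _ _ fun v _ => hfin _ _ fun w _ => ?_
    by_cases h : u ≠ v ∧ u ≠ w ∧ v ≠ w
    · filter_upwards [ev_mv_D p h.1 h.2.1 h.2.2] with δ hδ _ using hδ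
    · exact Eventually.of_forall fun _ h' => absurd h' h
  obtain ⟨δ, ⟨h1, h2⟩, h3, h4⟩ := ((h1.and h2).and (h3.and h4)).exists
  refine ⟨mv p δ, ⟨fun u hu v hv h => ?_, fun e he w hw n1 n2 h => ?_⟩, fun e he => ?_,
    fun e he => ?_⟩
  · by_contra hne
    exact h3 u hu v hv hne h
  · obtain ⟨a1, a2, a3⟩ := hG.ends e he
    exact h4 e.1 a1 e.2 a2 w hw ⟨a3, n1.symm, n2.symm⟩ (GPP.mem_seg_iff.1 h).1
  · exact len_le_one.2 (h1 e he).le
  · exact one_lt_len.2 (h2 e he)

/-! ### The instance of a sign matrix -/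

/-- The pattern: is the edge between the point number `i` and the disk number `k` short? -/
def short (M : List (List Bool)) (i k : ℕ) : Bool :=
  (decide (i < M.length) && decide (k < 2 * wid M)) && decide (ent M i (k / 2) = decide (k % 2 = 0))

/-- The edges of one kind. -/
def edg (M : List (List Bool)) (b : Bool) : List (ℕ × ℕ) :=
  (List.range (M.length + 1)).flatMap fun i => (List.range (2 * wid M + 1)).flatMap fun k =>
    if short M i k = b then [(2 * i, 2 * k + 1)] else []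

/-- The vertices. -/
def vts (M : List (List Bool)) : List ℕ :=
  (List.range (M.length + 1)).map (fun i => 2 * i) ++
    (List.range (2 * wid M + 1)).map fun k => 2 * k + 1

/-- The instance of a sign matrix. -/
def red (M : List (List Bool)) : Inst := (vts M, edg M true, edg M false)

theorem mem_edg {M : List (List Bool)} {b : Bool} {e : ℕ × ℕ} : e ∈ edg M b ↔
    ∃ i < M.length + 1, ∃ k < 2 * wid M + 1, short M i k = b ∧ e = (2 * i, 2 * k + 1) := by
  unfold edg
  simp only [List.mem_flatMap, List.mem_range]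
  constructor
  · rintro ⟨i, hi, k, hk, h⟩
    split_ifs at h with h1
    · exact ⟨i, hi, k, hk, h1, List.mem_singleton.1 h⟩
    · exact absurd h (by simp)
  · rintro ⟨i, hi, k, hk, h1, h⟩
    refine ⟨i, hi, k, hk, ?_⟩
    rw [if_pos h1, h]
    exact List.mem_singleton.2 rfl

theorem mem_vts {M : List (List Bool)} {v : ℕ} : v ∈ vts M ↔
    (∃ i < M.length + 1, v = 2 * i) ∨ ∃ k < 2 * wid M + 1, v = 2 * k + 1 := by
  unfold vts
  simp only [List.mem_append, List.mem_map, List.mem_range]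
  constructor
  · rintro (⟨i, hi, h⟩ | ⟨k, hk, h⟩)
    · exact Or.inl ⟨i, hi, h.symm⟩
    · exact Or.inr ⟨k, hk, h.symm⟩
  · rintro (⟨i, hi, h⟩ | ⟨k, hk, h⟩)
    · exact Or.inl ⟨i, hi, h.symm⟩
    · exact Or.inr ⟨k, hk, h.symm⟩

theorem mem_edges {M : List (List Bool)} {e : ℕ × ℕ} : e ∈ edges (red M) ↔
    ∃ i < M.length + 1, ∃ k < 2 * wid M + 1, e = (2 * i, 2 * k + 1) := by
  unfold edges red
  rw [List.mem_append, mem_edg, mem_edg]
  constructor
  · rintro (⟨i, hi, k, hk, _, h⟩ | ⟨i, hi, k, hk, _, h⟩)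
    · exact ⟨i, hi, k, hk, h⟩
    · exact ⟨i, hi, k, hk, h⟩
  · rintro ⟨i, hi, k, hk, h⟩
    cases hs : short M i k
    · exact Or.inr ⟨i, hi, k, hk, hs, h⟩
    · exact Or.inl ⟨i, hi, k, hk, hs, h⟩

theorem isInst_red (M : List (List Bool)) : IsInst (red M) := by
  constructor
  · intro e he
    obtain ⟨i, hi, k, hk, rfl⟩ := mem_edges.1 he
    refine ⟨mem_vts.2 (Or.inl ⟨i, hi, rfl⟩), mem_vts.2 (Or.inr ⟨k, hk, rfl⟩), ?_⟩
    simp only; omega
  · intro e he f hf h
    obtain ⟨i, hi, k, hk, h1, rfl⟩ := mem_edg.1 he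
    obtain ⟨i', hi', k', hk', h2, rfl⟩ := mem_edg.1 hf
    rcases h with h | h
    · rw [Prod.mk.injEq] at h
      have e1 : i = i' := by omega
      have e2 : k = k' := by omega
      subst e1; subst e2
      rw [h1] at h2
      exact absurd h2 (by decide)
    · rw [Prod.mk.injEq] at h
      omega

theorem adj_red {M : List (List Bool)} {u v : ℕ} : Adj (red M) u v ↔
    (∃ i < M.length + 1, ∃ k < 2 * wid M + 1, u = 2 * i ∧ v = 2 * k + 1) ∨
    ∃ i < M.length + 1, ∃ k < 2 * wid M + 1, v = 2 * i ∧ u = 2 * k + 1 := by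
  unfold Adj
  rw [mem_edges, mem_edges]
  simp only [Prod.mk.injEq]

theorem bip_red (M : List (List Bool)) : IsCompleteBipartite (red M) := by
  refine ⟨{v | v % 2 = 0}, ⟨0, mem_vts.2 (Or.inl ⟨0, by omega, rfl⟩), rfl⟩,
    ⟨1, mem_vts.2 (Or.inr ⟨0, by omega, rfl⟩), by simp⟩, fun u hu v hv => ?_⟩
  rw [adj_red]
  simp only [Set.mem_ofPred_eq]
  rcases mem_vts.1 hu with ⟨i, hi, rfl⟩ | ⟨k, hk, rfl⟩ <;>
    rcases mem_vts.1 hv with ⟨i', hi', rfl⟩ | ⟨k', hk', rfl⟩
  · constructor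
    · rintro (⟨a, _, b, _, _, h⟩ | ⟨a, _, b, _, _, h⟩) <;> omega
    · rintro (⟨_, h⟩ | ⟨h, _⟩) <;> omega
  · constructor
    · intro _
      left; omega
    · intro _
      exact Or.inl ⟨i, hi, k', hk', rfl, rfl⟩
  · constructor
    · intro _
      right; omega
    · intro _
      exact Or.inr ⟨i', hi', k, hk, rfl, rfl⟩
  · constructor
    · rintro (⟨a, _, b, _, h, _⟩ | ⟨a, _, b, _, h, _⟩) <;> omega
    · rintro (⟨h, _⟩ | ⟨_, h⟩) <;> omega

theorem short_even {M : List (List Bool)} {i j : ℕ} (hi : i < M.length) (hj : j < wid M) :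
    short M i (2 * j) = ent M i j := by
  unfold short
  have h1 : 2 * j < 2 * wid M := by omega
  have h2 : 2 * j / 2 = j := by omega
  have h3 : 2 * j % 2 = 0 := by omega
  rw [h2, h3]
  simp [hi, hj]

theorem short_odd {M : List (List Bool)} {i j : ℕ} (hi : i < M.length) (hj : j < wid M) :
    short M i (2 * j + 1) = !ent M i j := by
  unfold short
  have h1 : 2 * j + 1 < 2 * wid M := by omega
  have h2 : (2 * j + 1) / 2 = j := by omega
  have h3 : (2 * j + 1) % 2 = 1 := by omega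
  rw [h2, h3]
  simp [hi, h1]

/-! ### Soundness -/

theorem SR_of_red {m : ℕ} {M : List (List Bool)} (hM : Rect m M) (h : Realizable (red M)) :
    SR 3 M := by
  obtain ⟨p, -, hs, hl⟩ := h
  refine ⟨fun i => ![1, (p (2 * i)).1, (p (2 * i)).2],
    fun j => ![(p (2 * (2 * j + 1) + 1)).1 ^ 2 + (p (2 * (2 * j + 1) + 1)).2 ^ 2 -
      (p (2 * (2 * j) + 1)).1 ^ 2 - (p (2 * (2 * j) + 1)).2 ^ 2,
      -2 * ((p (2 * (2 * j + 1) + 1)).1 - (p (2 * (2 * j) + 1)).1),
      -2 * ((p (2 * (2 * j + 1) + 1)).2 - (p (2 * (2 * j) + 1)).2)], fun i hi j hj => ?_⟩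
  have hjw : j < wid M := by rwa [← wid_eq hM hi]
  have hS : ∀ k, k < 2 * wid M + 1 → short M i k = true →
      ((p (2 * i)).1 - (p (2 * k + 1)).1) ^ 2 + ((p (2 * i)).2 - (p (2 * k + 1)).2) ^ 2 ≤ 1 :=
    fun k hk h => len_le_one.1 (hs (2 * i, 2 * k + 1) (mem_edg.2 ⟨i, by omega, k, hk, h, rfl⟩))
  have hL : ∀ k, k < 2 * wid M + 1 → short M i k = false →
      1 < ((p (2 * i)).1 - (p (2 * k + 1)).1) ^ 2 + ((p (2 * i)).2 - (p (2 * k + 1)).2) ^ 2 :=
    fun k hk h => one_lt_len.1 (hl (2 * i, 2 * k + 1) (mem_edg.2 ⟨i, by omega, k, hk, h, rfl⟩))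
  rw [dotProduct, Fin.sum_univ_three, ← ent_eq hi hj]
  have s1 := short_even hi hjw
  have s2 := short_odd hi hjw
  cases hb : ent M i j
  · rw [hb] at s1 s2
    have a1 := hL (2 * j) (by omega) s1
    have a2 := hS (2 * j + 1) (by omega) (by simpa using s2)
    simp only [sgn_false]
    simp
    nlinarith
  · rw [hb] at s1 s2
    have a1 := hS (2 * j) (by omega) s1
    have a2 := hL (2 * j + 1) (by omega) (by simpa using s2)
    simp only [sgn_true]
    simp
    nlinarith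

/-! ### Completeness -/

theorem id_minus {x z a b c ε : ℝ} (h : a ^ 2 + b ^ 2 = 1) :
    (ε * x - (1 - ε * c) * a) ^ 2 + (ε * z - (1 - ε * c) * b) ^ 2 =
      1 - ε * (2 * (c + (x * a + z * b)) -
        ε * (x ^ 2 + z ^ 2 + 2 * c * (x * a + z * b) + c ^ 2)) := by
  linear_combination (1 - ε * c) ^ 2 * h

theorem id_plus {x z a b c ε : ℝ} (h : a ^ 2 + b ^ 2 = 1) :
    (ε * x - -(1 + ε * c) * a) ^ 2 + (ε * z - -(1 + ε * c) * b) ^ 2 =
      1 + ε * (2 * (c + (x * a + z * b)) +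
        ε * (x ^ 2 + z ^ 2 + 2 * c * (x * a + z * b) + c ^ 2)) := by
  linear_combination (1 + ε * c) ^ 2 * h

theorem red_of_SRN {m : ℕ} {M : List (List Bool)} (hM : Rect m M) (h : SRN 2 M) :
    Realizable (red M) := by
  obtain ⟨y, n, c, hn, hy⟩ := unit_of_SRN (k := 1) h one_pos
  have hn1 : ∀ j, (n j 0) ^ 2 + (n j 1) ^ 2 = 1 := by
    intro j
    have := (hn j).1
    rw [EuclideanSpace.norm_eq, Real.sqrt_eq_one, Fin.sum_univ_two] at this
    simpa using this
  have hy1 : ∀ i < M.length, ∀ j < wid M,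
      0 < sgn (ent M i j) * (c j + (y i 0 * n j 0 + y i 1 * n j 1)) := by
    intro i hi j hj
    have hjw : j < M[i].length := by rwa [wid_eq hM hi]
    have := hy i hi j hjw
    rw [ent_eq hi hjw]
    have e : inner ℝ (y i) (n j) = y i 0 * n j 0 + y i 1 * n j 1 := by
      rw [PiLp.inner_apply, Fin.sum_univ_two]
      simp [mul_comm]
    rw [← e]
    exact this
  -- the quadratic error
  have e1 : ∀ᶠ ε in 𝓝[>] (0 : ℝ), ∀ i < M.length, ∀ j < wid M,
      0 < 2 * (sgn (ent M i j) * (c j + (y i 0 * n j 0 + y i 1 * n j 1))) + ε *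
        (-(sgn (ent M i j) * ((y i 0) ^ 2 + (y i 1) ^ 2 + 2 * c j * (y i 0 * n j 0 + y i 1 * n j 1) +
          (c j) ^ 2))) :=
    ev_all fun i hi => ev_all fun j hj => ev_pos _ (by have := hy1 i hi j hj; linarith)
  have e2 : ∀ᶠ ε in 𝓝[>] (0 : ℝ), ∀ i < M.length, ∀ j < wid M,
      0 < 2 * (sgn (ent M i j) * (c j + (y i 0 * n j 0 + y i 1 * n j 1))) + ε *
        (sgn (ent M i j) * ((y i 0) ^ 2 + (y i 1) ^ 2 + 2 * c j * (y i 0 * n j 0 + y i 1 * n j 1) +
          (c j) ^ 2)) :=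
    ev_all fun i hi => ev_all fun j hj => ev_pos _ (by have := hy1 i hi j hj; linarith)
  have e3 : ∀ᶠ ε in 𝓝[>] (0 : ℝ), ∀ i < M.length, 0 < 1 + ε * (y i 0) :=
    ev_all fun i hi => ev_pos _ one_pos
  have e4 : ∀ᶠ ε in 𝓝[>] (0 : ℝ), ∀ i < M.length, 0 < 1 + ε * (-y i 0) :=
    ev_all fun i hi => ev_pos _ one_pos
  have e5 : ∀ᶠ ε in 𝓝[>] (0 : ℝ), ∀ j < wid M, 0 < 1 + ε * (c j) :=
    ev_all fun i hi => ev_pos _ one_pos
  have e6 : ∀ᶠ ε in 𝓝[>] (0 : ℝ), ∀ j < wid M, 0 < 1 + ε * (-c j) :=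
    ev_all fun i hi => ev_pos _ one_pos
  obtain ⟨ε, ⟨⟨h1, h2⟩, h3, h4⟩, ⟨h5, h6⟩, h0⟩ :=
    (((e1.and e2).and (e3.and e4)).and ((e5.and e6).and self_mem_nhdsWithin)).exists
  have h0 : 0 < ε := h0
  -- the points
  let q : ℕ → ℝ × ℝ := fun k => if k < 2 * wid M then
    (if k % 2 = 0 then ((1 - ε * c (k / 2)) * n (k / 2) 0, (1 - ε * c (k / 2)) * n (k / 2) 1)
      else (-(1 + ε * c (k / 2)) * n (k / 2) 0, -(1 + ε * c (k / 2)) * n (k / 2) 1))
    else (-10, 0)
  let P : ℕ → ℝ × ℝ := fun v => if v % 2 = 0 then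
    (if v / 2 < M.length then (ε * y (v / 2) 0, ε * y (v / 2) 1) else (10, 0)) else q (v / 2)
  have hP0 : ∀ i, P (2 * i) = if i < M.length then (ε * y i 0, ε * y i 1) else (10, 0) := by
    intro i
    simp only [P]
    rw [if_pos (by omega), show 2 * i / 2 = i by omega]
  have hP1 : ∀ k, P (2 * k + 1) = q k := by
    intro k
    simp only [P]
    rw [if_neg (by omega), show (2 * k + 1) / 2 = k by omega]
  have hq0 : ∀ j < wid M, q (2 * j) = ((1 - ε * c j) * n j 0, (1 - ε * c j) * n j 1) := by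
    intro j hj
    simp only [q]
    rw [if_pos (by omega), if_pos (by omega), show 2 * j / 2 = j by omega]
  have hq1 : ∀ j < wid M, q (2 * j + 1) = (-(1 + ε * c j) * n j 0, -(1 + ε * c j) * n j 1) := by
    intro j hj
    simp only [q]
    rw [if_pos (by omega), if_neg (by omega), show (2 * j + 1) / 2 = j by omega]
  -- bounds
  have hqb : ∀ k, |(q k).1| ≤ 2 ∨ (q k).1 = -10 := by
    intro k
    by_cases hk : k < 2 * wid M
    · left
      have hj : k / 2 < wid M := by omega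
      have b1 := h5 _ hj
      have b2 := h6 _ hj
      have b3 : |n (k / 2) 0| ≤ 1 := by
        rw [abs_le]
        have := hn1 (k / 2)
        constructor <;> nlinarith [sq_nonneg (n (k / 2) 1), sq_nonneg (n (k / 2) 0 - 1),
          sq_nonneg (n (k / 2) 0 + 1)]
      have b4 := abs_le.1 b3
      simp only [q, if_pos hk]
      split_ifs
      · rw [abs_mul]
        have : |1 - ε * c (k / 2)| ≤ 2 := by rw [abs_le]; constructor <;> linarith
        nlinarith [abs_nonneg (1 - ε * c (k / 2)), abs_nonneg (n (k / 2) 0)]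
      · rw [abs_mul]
        have : |-(1 + ε * c (k / 2))| ≤ 2 := by rw [abs_le]; constructor <;> linarith
        nlinarith [abs_nonneg (-(1 + ε * c (k / 2))), abs_nonneg (n (k / 2) 0)]
    · right
      simp only [q, if_neg hk]
  have hpb : ∀ i, |(P (2 * i)).1| ≤ 1 ∧ i < M.length ∨ (P (2 * i)).1 = 10 := by
    intro i
    by_cases hi : i < M.length
    · left
      have b1 := h3 _ hi
      have b2 := h4 _ hi
      rw [hP0, if_pos hi]
      refine ⟨?_, hi⟩
      rw [abs_le]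
      constructor
      · simp only; linarith
      · simp only; linarith
    · right
      rw [hP0, if_neg hi]
  refine realizable_of_strict P ?_ ?_ (isInst_red M)
  · intro e he
    obtain ⟨i, hi, k, hk, hs, rfl⟩ := mem_edg.1 he
    simp only
    have hi' : i < M.length := by
      by_contra hne
      simp [short, hne] at hs
    have hk' : k < 2 * wid M := by
      by_contra hne
      simp [short, hne] at hs
    have hj : k / 2 < wid M := by omega
    have a1 := h1 i hi' _ hj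
    have a2 := h2 i hi' _ hj
    have a3 := hn1 (k / 2)
    rw [hP0, if_pos hi', hP1]
    rcases Nat.even_or_odd' k with ⟨j, rfl | rfl⟩
    · rw [show 2 * j / 2 = j by omega] at a1 a2 a3 hj
      rw [short_even hi' hj] at hs
      rw [hs] at a1 a2
      rw [hq0 j hj]
      simp only [sgn_true, one_mul] at a1 a2 ⊢
      rw [id_minus a3]
      have := mul_pos h0 a1
      linarith
    · rw [show (2 * j + 1) / 2 = j by omega] at a1 a2 a3 hj
      rw [short_odd hi' hj] at hs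
      have hs' : ent M i j = false := by simpa using hs
      rw [hs'] at a1 a2
      rw [hq1 j hj]
      simp only [sgn_false] at a1 a2 ⊢
      rw [id_plus a3]
      have := mul_pos h0 a2
      linarith
  · intro e he
    obtain ⟨i, hi, k, hk, hs, rfl⟩ := mem_edg.1 he
    simp only
    rw [hP1]
    rcases hpb i with ⟨b1, hi'⟩ | b1
    · rcases hqb k with b2 | b2
      · by_cases hk' : k < 2 * wid M
        · have hj : k / 2 < wid M := by omega
          have a1 := h1 i hi' _ hj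
          have a2 := h2 i hi' _ hj
          have a3 := hn1 (k / 2)
          rw [hP0, if_pos hi']
          rcases Nat.even_or_odd' k with ⟨j, rfl | rfl⟩
          · rw [show 2 * j / 2 = j by omega] at a1 a2 a3 hj
            rw [short_even hi' hj] at hs
            rw [hs] at a1 a2
            rw [hq0 j hj]
            simp only [sgn_false] at a1 a2 ⊢
            rw [id_minus a3]
            have := mul_pos h0 a1
            linarith
          · rw [show (2 * j + 1) / 2 = j by omega] at a1 a2 a3 hj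
            rw [short_odd hi' hj] at hs
            have hs' : ent M i j = true := by simpa using hs
            rw [hs'] at a1 a2
            rw [hq1 j hj]
            simp only [sgn_true, one_mul] at a1 a2 ⊢
            rw [id_plus a3]
            have := mul_pos h0 a2
            linarith
        · exfalso
          have : (q k).1 = -10 := by simp only [q, if_neg hk']
          rw [this] at b2
          norm_num at b2
      · rw [b2]
        have := abs_le.1 b1
        nlinarith [sq_nonneg ((P (2 * i)).2 - (q k).2)]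
    · rcases hqb k with b2 | b2
      · rw [b1]
        have := abs_le.1 b2
        nlinarith [sq_nonneg ((P (2 * i)).2 - (q k).2)]
      · rw [b1, b2]
        nlinarith [sq_nonneg ((P (2 * i)).2 - (q k).2)]

end Pool.Agent.NPC.TH663.LS
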