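import Pool.Agent.TH663.LS.Main

/-!
# Long and short edges on complete bipartite graphs: membership in `∃ℝ`, polynomial time
-/

namespace Pool.Agent.NPC.TH663.LS

open Pool.Agent.NPC Pool.Agent.NPC.ER Pool.Agent.NPC.ER.Pat Pool.Agent.TH663.LS
open Pool.Agent.NPC.ER.GPP (vx subT neF avF holds_neF holds_avF poly_neF poly_avF poly_subT
  poly_two)
open Pool.Agent.NPC.H670R2 (ff tt conj holds_ff holds_tt holds_conj poly_conj poly_tvar poly_tadd
  poly_tmul poly_tneg poly_eq poly_lt poly_not poly_and poly_or poly_le not_etr_ff)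

/-- The square of the distance of two points. -/
def sqT (u v : ℕ) : Tm :=
  Tm.add (Tm.mul (subT (2 * u) (2 * v)) (subT (2 * u) (2 * v)))
    (Tm.mul (subT (2 * u + 1) (2 * v + 1)) (subT (2 * u + 1) (2 * v + 1)))

theorem eval_sqT (x : ℕ → ℝ) (u v : ℕ) : (sqT u v).eval x =
    ((vx x u).1 - (vx x v).1) ^ 2 + ((vx x u).2 - (vx x v).2) ^ 2 := by
  simp only [sqT, subT, Tm.eval, vx]
  ring

/-- The list of conditions. -/
def conds (G : Inst) : List Fm :=
  (G.1.flatMap fun u => G.1.map fun v => if u = v then tt else neF u v) ++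
  ((edges G).flatMap fun e => G.1.map fun w => if w = e.1 ∨ w = e.2 then tt else avF e.1 e.2 w) ++
  ((G.2.1.map fun e => Fm.le (sqT e.1 e.2) Tm.one) ++
  (G.2.2.map fun e => Fm.lt Tm.one (sqT e.1 e.2)))

theorem conds_iff (G : Inst) (x : ℕ → ℝ) : (∀ φ ∈ conds G, φ.Holds x) ↔
    IsDrawing G (vx x) ∧ (∀ e ∈ G.2.1, len (vx x e.1) (vx x e.2) ≤ 1) ∧
      ∀ e ∈ G.2.2, 1 < len (vx x e.1) (vx x e.2) := by
  unfold conds
  simp only [List.mem_append, List.mem_flatMap, List.mem_map]
  constructor
  · intro h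
    refine ⟨⟨fun u hu v hv huv => ?_, fun e he w hw h1 h2 => ?_⟩, fun e he => ?_, fun e he => ?_⟩
    · by_contra hne
      have := h _ (Or.inl (Or.inl ⟨u, hu, v, hv, rfl⟩))
      rw [if_neg hne, holds_neF] at this
      exact this huv
    · have := h _ (Or.inl (Or.inr ⟨e, he, w, hw, rfl⟩))
      rw [if_neg (by rintro (h3 | h3); exacts [h1 h3, h2 h3]), holds_avF] at this
      exact this
    · have := h _ (Or.inr (Or.inl ⟨e, he, rfl⟩))
      rw [len_le_one, ← eval_sqT]
      exact this
    · have := h _ (Or.inr (Or.inr ⟨e, he, rfl⟩))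
      rw [one_lt_len, ← eval_sqT]
      exact this
  · rintro ⟨hd, hs, hl⟩ φ hφ
    rcases hφ with (⟨u, hu, v, hv, rfl⟩ | ⟨e, he, w, hw, rfl⟩) | ⟨e, he, rfl⟩ | ⟨e, he, rfl⟩
    · split_ifs with h
      · exact holds_tt x
      · rw [holds_neF]
        exact fun h3 => h (hd.inj u hu v hv h3)
    · split_ifs with h
      · exact holds_tt x
      · push Not at h
        rw [holds_avF]
        exact hd.avoid e he w hw h.1 h.2
    · have := hs e he
      rw [len_le_one, ← eval_sqT] at this
      exact this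
    · have := hl e he
      rw [one_lt_len, ← eval_sqT] at this
      exact this

/-! ### The test for inputs -/

/-- Adjacency. -/
def adjB (G : Inst) (u v : ℕ) : Bool := decide ((u, v) ∈ edges G) || decide ((v, u) ∈ edges G)

theorem adjB_iff {G : Inst} {u v : ℕ} : adjB G u v = true ↔ Adj G u v := by
  simp [adjB, Adj]

/-- The test for instances. -/
def instB (G : Inst) : Bool :=
  ((edges G).all fun e => (decide (e.1 ∈ G.1) && decide (e.2 ∈ G.1)) && !decide (e.1 = e.2)) &&
    G.2.1.all fun e => G.2.2.all fun f => !(decide (e = f) || decide (e = (f.2, f.1)))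

theorem instB_iff (G : Inst) : instB G = true ↔ IsInst G := by
  unfold instB
  simp only [List.all_eq_true, decide_eq_true_eq, Bool.and_eq_true, Bool.not_eq_true',
    decide_eq_false_iff_not, and_assoc, Bool.or_eq_false_iff]
  constructor
  · rintro ⟨h1, h2⟩
    exact ⟨h1, fun e he f hf h => by
      obtain ⟨a, b⟩ := h2 e he f hf
      exact h.elim a b⟩
  · rintro ⟨h1, h2⟩
    exact ⟨h1, fun e he f hf => ⟨fun h => h2 e he f hf (Or.inl h), fun h => h2 e he f hf (Or.inr h)⟩⟩

/-- The test for complete bipartite graphs. -/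
def bipB (G : Inst) : Bool :=
  (G.1.any fun v => adjB G (G.1.headD 0) v) &&
    G.1.all fun u => G.1.all fun v =>
      decide (adjB G u v = xor (adjB G (G.1.headD 0) u) (adjB G (G.1.headD 0) v))

theorem bipB_iff {G : Inst} (hG : IsInst G) : bipB G = true ↔ IsCompleteBipartite G := by
  have hirr : ∀ u, ¬ Adj G u u := by
    intro u h
    rcases h with h | h <;> exact (hG.ends _ h).2.2 rfl
  unfold bipB
  simp only [List.all_eq_true, List.any_eq_true, decide_eq_true_eq, Bool.and_eq_true]
  constructor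
  · rintro ⟨⟨v, hv, hv1⟩, h⟩
    obtain ⟨a, l, hl⟩ : ∃ a l, G.1 = a :: l := by
      cases hc : G.1 with
      | nil => rw [hc] at hv; exact absurd hv (by simp)
      | cons a l => exact ⟨a, l, rfl⟩
    have hhd : G.1.headD 0 = a := by rw [hl]; rfl
    have ha : a ∈ G.1 := by rw [hl]; exact List.mem_cons_self
    rw [hhd] at hv1
    rw [hhd] at h
    refine ⟨{u | adjB G a u = false}, ⟨a, ha, ?_⟩, ⟨v, hv, ?_⟩, fun u hu w hw => ?_⟩
    · change adjB G a a = false
      rw [← Bool.not_eq_true, adjB_iff]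
      exact hirr a
    · change ¬ adjB G a v = false
      rw [hv1]; decide
    · rw [← adjB_iff, h u hu w hw]
      change _ ↔ (adjB G a u = false ∧ ¬ adjB G a w = false) ∨
        (¬ adjB G a u = false ∧ adjB G a w = false)
      cases adjB G a u <;> cases adjB G a w <;> simp
  · rintro ⟨A, ⟨u0, hu0, hA0⟩, ⟨v0, hv0, hB0⟩, h⟩
    obtain ⟨a, l, hl⟩ : ∃ a l, G.1 = a :: l := by
      cases hc : G.1 with
      | nil => rw [hc] at hu0; exact absurd hu0 (by simp)
      | cons a l => exact ⟨a, l, rfl⟩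
    have hhd : G.1.headD 0 = a := by rw [hl]; rfl
    have ha : a ∈ G.1 := by rw [hl]; exact List.mem_cons_self
    rw [hhd]
    constructor
    · by_cases haA : a ∈ A
      · exact ⟨v0, hv0, adjB_iff.2 ((h a ha v0 hv0).2 (Or.inl ⟨haA, hB0⟩))⟩
      · exact ⟨u0, hu0, adjB_iff.2 ((h a ha u0 hu0).2 (Or.inr ⟨haA, hA0⟩))⟩
    · intro u hu w hw
      have h1 := h u hu w hw
      have h2 := h a ha u hu
      have h3 := h a ha w hw
      rw [← adjB_iff] at h1 h2 h3
      cases h4 : adjB G u w <;> cases h5 : adjB G a u <;> cases h6 : adjB G a w <;>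
        rw [h4] at h1 <;> rw [h5] at h2 <;> rw [h6] at h3 <;> simp at h1 h2 h3 ⊢ <;> tauto

/-- The existential sentence. -/
def form (G : Inst) : Fm :=
  if (instB G && bipB G) = true then conj (conds G) else ff

theorem form_correct (G : Inst) :
    (IsInst G ∧ IsCompleteBipartite G ∧ Realizable G) ↔ ETR (form G) := by
  unfold form
  split_ifs with h
  · rw [Bool.and_eq_true] at h
    have h1 := (instB_iff G).1 h.1
    have h2 := (bipB_iff h1).1 h.2
    unfold ETR Realizable
    simp only [holds_conj, conds_iff]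
    constructor
    · rintro ⟨-, -, p, hp⟩
      refine ⟨fun n => if n % 2 = 0 then (p (n / 2)).1 else (p (n / 2)).2, ?_⟩
      have hv : vx (fun n => if n % 2 = 0 then (p (n / 2)).1 else (p (n / 2)).2) = p := by
        funext v
        unfold vx
        have e1 : 2 * v % 2 = 0 := by omega
        have e2 : (2 * v + 1) % 2 = 1 := by omega
        have e3 : 2 * v / 2 = v := by omega
        have e4 : (2 * v + 1) / 2 = v := by omega
        simp only [e1, e2, e3, e4]
        rfl
      rw [hv]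
      exact hp
    · rintro ⟨x, hx⟩
      exact ⟨h1, h2, vx x, hx⟩
  · constructor
    · rintro ⟨h1, h2, -⟩
      exact absurd (by rw [Bool.and_eq_true]; exact ⟨(instB_iff G).2 h1, (bipB_iff h1).2 h2⟩) h
    · intro h1
      exact absurd h1 not_etr_ff

/-! ### Polynomial time -/

section

variable {α : Type} [TEnc α]

theorem poly_sqT {u v : α → ℕ} (hu : Poly u) (hv : Poly v) : Poly (fun a => sqT (u a) (v a)) :=
  poly_tadd (poly_tmul (poly_subT (poly_two hu) (poly_two hv))
    (poly_subT (poly_two hu) (poly_two hv)))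
    (poly_tmul (poly_subT (Poly.succ (poly_two hu)) (Poly.succ (poly_two hv)))
      (poly_subT (Poly.succ (poly_two hu)) (Poly.succ (poly_two hv))))

theorem poly_edges : Poly edges :=
  Poly.append (Poly.fst (Poly.snd Poly.id)) (Poly.snd (Poly.snd Poly.id))

theorem poly_conds : Poly conds := by
  have hV : Poly (fun G : Inst => G.1) := Poly.fst Poly.id
  have hS : Poly (fun G : Inst => G.2.1) := Poly.fst (Poly.snd Poly.id)
  have hL : Poly (fun G : Inst => G.2.2) := Poly.snd (Poly.snd Poly.id)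
  refine Poly.append (Poly.append ?_ ?_) (Poly.append ?_ ?_)
  · refine Poly.flatMap (F := fun (G : Inst) (u : ℕ) => G.1.map fun v =>
      if u = v then tt else neF u v) hV ?_
    refine Poly.map (F := fun (p : Inst × ℕ) (v : ℕ) => if p.2 = v then tt else neF p.2 v)
      (hV.comp (Poly.fst Poly.id)) ?_
    exact Poly.ite (Poly.decide_eq (Poly.snd (Poly.fst Poly.id)) (Poly.snd Poly.id))
      (Poly.const _) (poly_neF (Poly.snd (Poly.fst Poly.id)) (Poly.snd Poly.id))
  · refine Poly.flatMap (F := fun (G : Inst) (e : ℕ × ℕ) => G.1.map fun w =>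
      if w = e.1 ∨ w = e.2 then tt else avF e.1 e.2 w) poly_edges ?_
    refine Poly.map (F := fun (p : Inst × ℕ × ℕ) (w : ℕ) => if w = p.2.1 ∨ w = p.2.2 then tt
      else avF p.2.1 p.2.2 w) (hV.comp (Poly.fst Poly.id)) ?_
    have e1 : Poly (fun q : (Inst × ℕ × ℕ) × ℕ => q.1.2.1) :=
      Poly.fst (Poly.snd (Poly.fst Poly.id))
    have e2 : Poly (fun q : (Inst × ℕ × ℕ) × ℕ => q.1.2.2) :=
      Poly.snd (Poly.snd (Poly.fst Poly.id))
    have w : Poly (fun q : (Inst × ℕ × ℕ) × ℕ => q.2) := Poly.snd Poly.id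
    exact Poly.ite (Poly.decide_or (Poly.decide_eq w e1) (Poly.decide_eq w e2))
      (Poly.const _) (poly_avF e1 e2 w)
  · refine Poly.map (F := fun (_ : Inst) (e : ℕ × ℕ) => Fm.le (sqT e.1 e.2) Tm.one) hS ?_
    exact poly_le (poly_sqT (Poly.fst (Poly.snd Poly.id)) (Poly.snd (Poly.snd Poly.id)))
      (Poly.const _)
  · refine Poly.map (F := fun (_ : Inst) (e : ℕ × ℕ) => Fm.lt Tm.one (sqT e.1 e.2)) hL ?_
    exact poly_lt (Poly.const _)
      (poly_sqT (Poly.fst (Poly.snd Poly.id)) (Poly.snd (Poly.snd Poly.id)))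

theorem poly_adjB {G : α → Inst} {u v : α → ℕ} (hG : Poly G) (hu : Poly u) (hv : Poly v) :
    Poly (fun a => adjB (G a) (u a) (v a)) :=
  Poly.or ((Poly.decide_mem (Poly.pair hu hv) (poly_edges.comp hG)).congr
      fun _ => decide_eq_decide.2 Iff.rfl)
    ((Poly.decide_mem (Poly.pair hv hu) (poly_edges.comp hG)).congr
      fun _ => decide_eq_decide.2 Iff.rfl)

theorem poly_instB : Poly instB := by
  have hS : Poly (fun G : Inst => G.2.1) := Poly.fst (Poly.snd Poly.id)
  have h1 : Poly (fun p : Inst × (ℕ × ℕ) => p.1.1) := Poly.fst (Poly.fst Poly.id)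
  have e1 : Poly (fun p : Inst × (ℕ × ℕ) => p.2.1) := Poly.fst (Poly.snd Poly.id)
  have e2 : Poly (fun p : Inst × (ℕ × ℕ) => p.2.2) := Poly.snd (Poly.snd Poly.id)
  refine Poly.and (Poly.all (p := fun (G : Inst) (e : ℕ × ℕ) =>
      (decide (e.1 ∈ G.1) && decide (e.2 ∈ G.1)) && !decide (e.1 = e.2)) poly_edges
      (Poly.and (Poly.and (Poly.decide_mem e1 h1) (Poly.decide_mem e2 h1))
        (Poly.not (Poly.decide_eq e1 e2)))) ?_
  refine Poly.all (p := fun (G : Inst) (e : ℕ × ℕ) => G.2.2.all fun f =>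
    !(decide (e = f) || decide (e = (f.2, f.1)))) hS ?_
  refine Poly.all (p := fun (q : Inst × ℕ × ℕ) (f : ℕ × ℕ) =>
    !(decide (q.2 = f) || decide (q.2 = (f.2, f.1))))
    (Poly.snd (Poly.snd (Poly.fst Poly.id))) ?_
  have e : Poly (fun q : (Inst × ℕ × ℕ) × ℕ × ℕ => q.1.2) := Poly.snd (Poly.fst Poly.id)
  have f : Poly (fun q : (Inst × ℕ × ℕ) × ℕ × ℕ => q.2) := Poly.snd Poly.id
  exact Poly.not (Poly.or (Poly.decide_eq e f)
    (Poly.decide_eq e (Poly.pair (Poly.snd f) (Poly.fst f))))

theorem poly_hd : Poly (fun G : Inst => G.1.headD 0) :=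
  (Poly.optCases (Poly.head? (Poly.fst Poly.id)) (Poly.const 0) (h := fun _ b => b)
    (Poly.snd Poly.id)).congr fun G => by cases G.1 <;> rfl

theorem poly_bipB : Poly bipB := by
  have hV : Poly (fun G : Inst => G.1) := Poly.fst Poly.id
  refine Poly.and (Poly.any (p := fun (G : Inst) (v : ℕ) => adjB G (G.1.headD 0) v) hV
    (poly_adjB (Poly.fst Poly.id) (poly_hd.comp (Poly.fst Poly.id)) (Poly.snd Poly.id))) ?_
  refine Poly.all (p := fun (G : Inst) (u : ℕ) => G.1.all fun v =>
    decide (adjB G u v = xor (adjB G (G.1.headD 0) u) (adjB G (G.1.headD 0) v))) hV ?_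
  refine Poly.all (p := fun (q : Inst × ℕ) (v : ℕ) =>
    decide (adjB q.1 q.2 v = xor (adjB q.1 (q.1.1.headD 0) q.2) (adjB q.1 (q.1.1.headD 0) v)))
    (hV.comp (Poly.fst Poly.id)) ?_
  have g : Poly (fun r : (Inst × ℕ) × ℕ => r.1.1) := Poly.fst (Poly.fst Poly.id)
  have u : Poly (fun r : (Inst × ℕ) × ℕ => r.1.2) := Poly.snd (Poly.fst Poly.id)
  have v : Poly (fun r : (Inst × ℕ) × ℕ => r.2) := Poly.snd Poly.id
  have h := poly_hd.comp g
  have a1 := poly_adjB g h u
  have a2 := poly_adjB g h v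
  refine Poly.decide_eq (poly_adjB g u v) ?_
  exact Poly.xor a1 a2

theorem poly_form : Poly form :=
  Poly.ite (Poly.decide_bool (Poly.and poly_instB poly_bipB)) (poly_conj poly_conds) (Poly.const _)

/-! ### The reduction is computable in polynomial time -/

theorem poly_short {M : α → List (List Bool)} {i k : α → ℕ} (hM : Poly M) (hi : Poly i)
    (hk : Poly k) : Poly (fun a => short (M a) (i a) (k a)) := by
  unfold short
  exact Poly.and (Poly.and (Poly.decide_lt hi (Poly.length hM))
    (Poly.decide_lt hk (Poly.mul (Poly.const 2) (upoly_wid hM).toPoly)))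
    (Poly.decide_eq (poly_ent hM hi (Poly.div hk (Poly.const 2)))
      (Poly.decide_eq (Poly.mod hk (Poly.const 2)) (Poly.const 0)))

theorem upoly_cols {M : α → List (List Bool)} (hM : Poly M) :
    UPoly (fun a => 2 * wid (M a) + 1) :=
  UPoly.add (UPoly.mul (UPoly.const 2) (upoly_wid hM)) (UPoly.const 1)

theorem upoly_rows {M : α → List (List Bool)} (hM : Poly M) :
    UPoly (fun a => (M a).length + 1) :=
  UPoly.add (UPoly.length hM) (UPoly.const 1)

theorem poly_edg (b : Bool) : Poly (fun M : List (List Bool) => edg M b) := by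
  refine Poly.flatMap (F := fun (M : List (List Bool)) (i : ℕ) =>
    (List.range (2 * wid M + 1)).flatMap fun k =>
      if short M i k = b then [(2 * i, 2 * k + 1)] else []) (upoly_rows Poly.id).range ?_
  refine Poly.flatMap (F := fun (p : List (List Bool) × ℕ) (k : ℕ) =>
      if short p.1 p.2 k = b then [(2 * p.2, 2 * k + 1)] else [])
      (upoly_cols (Poly.fst Poly.id)).range ?_
  have hM : Poly (fun p : (List (List Bool) × ℕ) × ℕ => p.1.1) := Poly.fst (Poly.fst Poly.id)
  have hi : Poly (fun p : (List (List Bool) × ℕ) × ℕ => p.1.2) := Poly.snd (Poly.fst Poly.id)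
  have hk : Poly (fun p : (List (List Bool) × ℕ) × ℕ => p.2) := Poly.snd Poly.id
  exact Poly.ite (Poly.decide_eq (poly_short hM hi hk) (Poly.const b))
    (Poly.cons (Poly.pair (poly_two hi) (Poly.succ (poly_two hk))) (Poly.const [])) (Poly.const [])

theorem poly_vts : Poly vts := by
  refine Poly.append (Poly.map (F := fun _ (i : ℕ) => 2 * i) (upoly_rows Poly.id).range
    (poly_two (Poly.snd Poly.id))) (Poly.map (F := fun _ (k : ℕ) => 2 * k + 1)
    (upoly_cols Poly.id).range (Poly.succ (poly_two (Poly.snd Poly.id))))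

theorem poly_red : Poly red :=
  Poly.pair poly_vts (Poly.pair (poly_edg true) (poly_edg false))

end

end Pool.Agent.NPC.TH663.LS
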